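import Pool.Agent.T2H65.CP.Xr
import Pool.Agent.T2H65.CP.RF
import Pool.Agent.T2H65.CP.B1

/-!
# The residue formula for pencils of `C_ab` curves, and for the varieties fibred in such curves over `ℙ^r`

Let `M` be a finitely generated field of characteristic zero and of transcendence degree `d` over `ℚ`, which
contains the number field `k`, and let `K = M(w)` be the field of rational functions over `M`: the function field
of a variety `𝒴` over `k` of dimension `d + 1`. Let `a, b ≥ 2` be coprime.

**I. Curves.** Let `P₀, Q ∈ M[x, y]`, `Q ≠ 0`, where all the monomials `x^i y^j` of `P₀` and `Q` satisfy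
`a i + b j < a b`, and let `C` be the curve

  `y^a - x^b + P₀(x, y) + w Q(x, y) = 0`

over `K`: a `C_ab` curve. It is absolutely irreducible, with one point at infinity, which is rational and
smooth; if it is smooth in the affine plane its genus is `(a - 1)(b - 1) / 2`, and it is in general not
hyperelliptic for `a, b ≥ 3`. Assume that the coordinate ring `𝒪` of the affine curve is a Dedekind domain (`C` is
regular). Then the class group of `𝒪` is `J(K)`, where `J` is the Jacobian of `C`. We prove

  `rank J(K) = c - m`,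

where `c` is the number of the closed points of the scheme `P = Q = 0` in the affine plane over `M`,
`P = y^a - x^b + P₀`, and `m` is the number of the irreducible components of the curve `Q = 0` over `M`; and that
for every model of `K` and of the curve over the integers of `k` the series of the averages `𝔄_v` of the
traces of the Frobenius on `H¹` of the fibres has the residue `- rank J(K)` at `s = 1`: the
Birch–Swinnerton-Dyer type statement for these fibrations.

**II. Varieties of all dimensions.** Let `r, n ≥ 1`, and let now `P₀, Q ∈ M[t_0, ..., t_r][x, y]`, `Q ≠ 0`, where all the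
monomials `p(t) x^i y^j` of `P₀` and of `Q` satisfy `a i + b j < a b` and `p` is homogeneous of degree
`n (a b - a i - b j)`. Let `X` be the variety

  `y^a - x^b + P₀(t, x, y) + w Q(t, x, y) = 0`

over `K`, where `t = (t_0, ..., t_r) ≠ 0` and `(t, x, y)` is identified with `(λ t, λ^{na} x, λ^{nb} y)`, together with one
more point at infinity in the fibre over every `t ∈ ℙ^r`: a section `O` of `X → ℙ^r`. It is projective, of
dimension `r + 1` (a surface for `r = 1`), and all the fibres of `X → ℙ^r` are absolutely irreducible `C_ab` curves.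
Assume that `X` is smooth. As `H^i(ℙ^r, R^{1-i} f_* 𝒪) = 0` one has `H¹(X, 𝒪) = 0`, and `NS(X/K) = Pic(X)` (up to
torsion) is of rank `2 + rank J(K(ℙ^r))`, where `J` is the Jacobian of the generic fibre: the classes
are that of `O`, that of the inverse image of a hyperplane, and the points of `J`. As `J(F(t_0)) = J(F)` for every field
`F`, and as over `K(t_0, ..., t_r)` the generic fibre is isomorphic to the curve with the equation above, the rank
of `J(K(ℙ^r))` is the rank of the class group of the ring `K(t_0, ..., t_r)[x, y] / (y^a - x^b + P₀ + w Q)`. We prove that this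
rank is `c - m`, for the field `M(t_0, ..., t_r)`, and that for every model of `K` and of `X` over the integers of `k`
the series of the averages `𝔅_v` of the traces of the Frobenius on `H²` of the fibres has
the residue `2 + c - m = rank NS(X/K)` at `s = 2`. Here the trace `β` on `H²` of the fibre `X_φ` over a point `φ` of the model
with values in the field with `q` elements is used only through the estimate

  `|β - q^{1-r} (#X_φ - q^{r+1})| ≤ B √q`,

which follows from the Weil conjectures, Poincaré duality and `H¹(X_φ) = 0` (and which is `|-1| ≤ √q` for `r = 1`, as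
`β = #X_φ - 1 - q²`); the number of the points is `#X_φ = (N + q^{r+1} - 1) / (q - 1)`, where `N` is the number of the
solutions `(t, x, y)`, `t ≠ 0`, of the equation in the field.
-/

set_option autoImplicit false

namespace Pool.Agent.Results.MP_6090f9_nt.CabPencils

open Polynomial NumberField IsDedekindDomain
open Pool.Agent.Y707.PR (HasResidue)
open Pool.Agent.T2H65.CP

/-- All the monomials `x^i y^j` of `g` (a polynomial in `y` over `R[x]`) satisfy `a i + b j < a b`. -/
def IsLow {R : Type} [CommRing R] (a b : ℕ) (g : R[X][X]) : Prop :=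
  ∀ i j, (g.coeff j).coeff i ≠ 0 → a * i + b * j < a * b

/-- The curve `y^a - x^b + P₀ + w Q` over `K`. -/
noncomputable def curve {M K : Type} [Field M] [Field K] [Algebra M K] (a b : ℕ) (P₀ Q : M[X][X])
    (w : K) : K[X][X] :=
  X ^ a - C (X ^ b) + P₀.map (mapRingHom (algebraMap M K)) +
    C (C w) * Q.map (mapRingHom (algebraMap M K))

/-- The variety `y^a - x^b + P₀ + w Q` over `K`; the inner variables are `t_0, ..., t_r`, then `x`, then `y`. -/
noncomputable def variety {M K : Type} [Field M] [Field K] [Algebra M K] {r : ℕ} (a b : ℕ)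
    (P₀ Q : (MvPolynomial (Fin (r + 1)) M)[X][X]) (w : K) : (MvPolynomial (Fin (r + 1)) K)[X][X] :=
  X ^ a - C (X ^ b) + P₀.map (mapRingHom (MvPolynomial.map (algebraMap M K))) +
    C (C (MvPolynomial.C w)) * Q.map (mapRingHom (MvPolynomial.map (algebraMap M K)))

/-- A polynomial in `x, y` over `E[t_0, ..., t_r]` as a polynomial over `E(t_0, ..., t_r)`: the generic fibre. -/
noncomputable def generic {E : Type} [Field E] {r : ℕ} (p : (MvPolynomial (Fin (r + 1)) E)[X][X]) :
    (FractionRing (MvPolynomial (Fin (r + 1)) E))[X][X] :=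
  p.map (mapRingHom (algebraMap (MvPolynomial (Fin (r + 1)) E)
    (FractionRing (MvPolynomial (Fin (r + 1)) E))))

/-- The coefficient of `x^i y^j` in `G` is homogeneous of degree `n (a b - a i - b j)`. -/
def IsGraded {R : Type} [CommRing R] {r : ℕ} (a b n : ℕ) (G : (MvPolynomial (Fin (r + 1)) R)[X][X]) :
    Prop :=
  ∀ i j, ((G.coeff j).coeff i).IsHomogeneous (n * (a * b - (a * i + b * j)))

/-- The closed points of the scheme `P = Q = 0` in the affine plane over `L`. -/
abbrev BasePoints {L : Type} [Field L] (P Q : L[X][X]) : Type :=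
  {𝔪 : Ideal L[X][X] // 𝔪.IsMaximal ∧ P ∈ 𝔪 ∧ Q ∈ 𝔪}

/-- The irreducible components of the curve `Q = 0` in the affine plane over `L`. -/
abbrev Components {L : Type} [Field L] (Q : L[X][X]) : Type :=
  {𝔠 : Ideal L[X][X] // ∃ π : L[X][X], Irreducible π ∧ π ∣ Q ∧ 𝔠 = Ideal.span {π}}

/-- The number of the closed points of `y^a - x^b + P₀ = Q = 0` minus the number of the components of
`Q = 0`, over `L`. -/
noncomputable def rho {L : Type} [Field L] (a b : ℕ) (P₀ Q : L[X][X]) : ℕ :=
  Nat.card (BasePoints (X ^ a - C (X ^ b) + P₀) Q) - Nat.card (Components Q)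

/-- The ring `K[x, y] / (F)` is a domain, and its class group has rank `n`. -/
def ClassGroupHasRank {K : Type} [Field K] (F : K[X][X]) (n : ℕ) : Prop :=
  ∃ _ : IsDomain (AdjoinRoot F), Module.rank ℤ (Additive (ClassGroup (AdjoinRoot F))) = n

/-- The trace of the Frobenius on `H¹` of the complete curve with the affine equation `P(x, y) = 0` and with
one more rational point, if it is smooth: `q + 1 - #C(F)`. -/
noncomputable def traceOne (F : Type) [Field F] (P : F[X][X]) : ℝ :=
  (Nat.card F : ℝ) - Nat.card {z : F × F // evalEval z.1 z.2 P = 0}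

/-- The average `𝔄_v = q_v^{-m} ∑ a(fibre)` of the traces on `H¹` of the curves `G = 0` over the points of
`Spec R` above `v`, rational over the residue field of `v`, at which `N` does not vanish. -/
noncomputable def averageOne {k R : Type} [Field k] [NumberField k] [CommRing R] [Algebra (𝓞 k) R]
    (G : R[X][X]) (N : R) (m : ℕ) (v : HeightOneSpectrum (𝓞 k)) : ℝ :=
  ((Nat.card (𝓞 k ⧸ v.asIdeal) : ℝ) ^ m)⁻¹ *
    ∑ᶠ φ : {φ : R →+* 𝓞 k ⧸ v.asIdeal //
      φ.comp (algebraMap (𝓞 k) R) = Ideal.Quotient.mk v.asIdeal ∧ φ N ≠ 0},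
        traceOne (𝓞 k ⧸ v.asIdeal) (G.map (mapRingHom φ.1))

/-- The number of the points over the finite field `F` of the variety `G(t, x, y) = 0`, `t ≠ 0`, modulo
`(t, x, y) ~ (λ t, λ^{na} x, λ^{nb} y)`, with the section at infinity. -/
noncomputable def points {r : ℕ} (F : Type) [Field F] (G : (MvPolynomial (Fin (r + 1)) F)[X][X]) : ℝ :=
  ((Nat.card {z : (Fin (r + 1) → F) × (F × F) // z.1 ≠ 0 ∧
      evalEval z.2.1 z.2.2 (G.map (mapRingHom (MvPolynomial.eval z.1))) = 0} : ℝ) +
    (Nat.card F : ℝ) ^ (r + 1) - 1) / ((Nat.card F : ℝ) - 1)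

/-- `β` is up to `B √q` the trace of the Frobenius on `H²` of the fibres over the points `φ` of `Spec R` over the
residue fields with `φ(N) ≠ 0`: `|β - q^{1-r} (#X_φ - q^{r+1})| ≤ B √q`. -/
def IsTraceTwo {k R : Type} [Field k] [NumberField k] [CommRing R] [Algebra (𝓞 k) R] {r : ℕ}
    (G : (MvPolynomial (Fin (r + 1)) R)[X][X]) (N : R) (B : ℝ)
    (β : ∀ v : HeightOneSpectrum (𝓞 k), (R →+* 𝓞 k ⧸ v.asIdeal) → ℝ) : Prop :=
  ∀ (v : HeightOneSpectrum (𝓞 k)) (φ : R →+* 𝓞 k ⧸ v.asIdeal),
    φ.comp (algebraMap (𝓞 k) R) = Ideal.Quotient.mk v.asIdeal → φ N ≠ 0 →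
      |β v φ - ((Nat.card (𝓞 k ⧸ v.asIdeal) : ℝ) ^ (r - 1))⁻¹ *
        (points (𝓞 k ⧸ v.asIdeal) (G.map (mapRingHom (MvPolynomial.map φ))) -
          (Nat.card (𝓞 k ⧸ v.asIdeal) : ℝ) ^ (r + 1))| ≤ B * √(Nat.card (𝓞 k ⧸ v.asIdeal) : ℝ)

/-- The average `𝔅_v = q_v^{-m} ∑ β(fibre)` over the points of `Spec R` above `v`, rational over the residue
field of `v`, at which `N` does not vanish. -/
noncomputable def average {k R : Type} [Field k] [NumberField k] [CommRing R] [Algebra (𝓞 k) R]
    (β : ∀ v : HeightOneSpectrum (𝓞 k), (R →+* 𝓞 k ⧸ v.asIdeal) → ℝ) (N : R) (m : ℕ)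
    (v : HeightOneSpectrum (𝓞 k)) : ℝ :=
  ((Nat.card (𝓞 k ⧸ v.asIdeal) : ℝ) ^ m)⁻¹ *
    ∑ᶠ φ : {φ : R →+* 𝓞 k ⧸ v.asIdeal //
      φ.comp (algebraMap (𝓞 k) R) = Ideal.Quotient.mk v.asIdeal ∧ φ N ≠ 0}, β v φ.1

/-- Finitely many closed points and components, and the class group of `K[x, y] / (F)` is of rank `rho`. -/
def RankFormula {L K : Type} [Field L] [Field K] (a b : ℕ) (P₀ Q : L[X][X]) (F : K[X][X]) : Prop :=
  Finite (BasePoints (X ^ a - C (X ^ b) + P₀) Q) ∧ Finite (Components Q) ∧
    Nat.card (Components Q) ≤ Nat.card (BasePoints (X ^ a - C (X ^ b) + P₀) Q) ∧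
    ClassGroupHasRank F (rho a b P₀ Q)

/-- `R` is a model of the field `K ⊇ M` over the integers of `k`: the maps `𝓞 k → R → K` and `𝓞 k → M → K` agree
(`R` is a finitely generated domain over `ℤ` with the field of fractions `K`). -/
def IsModel (k M K R : Type) [Field k] [NumberField k] [Field M] [Field K] [CommRing R] [Algebra k M]
    [Algebra M K] [Algebra R K] [Algebra (𝓞 k) R] : Prop :=
  ∀ z : 𝓞 k, algebraMap R K (algebraMap (𝓞 k) R z) = algebraMap M K (algebraMap k M z)

/-- For every model the series of the averages `-𝔄_v` of the curve `F = 0` has the residue `ρ` at `s = 1`. -/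
def ResidueOne (k M : Type) [Field k] [NumberField k] [Field M] [Algebra k M] {K : Type} [Field K]
    [Algebra M K] (F : K[X][X]) (m ρ : ℕ) : Prop :=
  ∀ (R : Type) [CommRing R] [IsDomain R] [Algebra.FiniteType ℤ R] [Algebra R K]
    [IsFractionRing R K] [Algebra (𝓞 k) R], IsModel k M K R →
    ∀ G : R[X][X], G.map (mapRingHom (algebraMap R K)) = F → ∀ N : R, N ≠ 0 →
      ∀ S : Finset (HeightOneSpectrum (𝓞 k)), HasResidue S (fun v => - averageOne G N m v) 1 ρ

/-- For every model the series of the averages `𝔅_v` of the variety `F = 0` has the residue `ρ` at `s = 2`. -/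
def ResidueTwo (k M : Type) [Field k] [NumberField k] [Field M] [Algebra k M] {K : Type} [Field K]
    [Algebra M K] {r : ℕ} (F : (MvPolynomial (Fin (r + 1)) K)[X][X]) (m ρ : ℕ) : Prop :=
  ∀ (R : Type) [CommRing R] [IsDomain R] [Algebra.FiniteType ℤ R] [Algebra R K]
    [IsFractionRing R K] [Algebra (𝓞 k) R], IsModel k M K R →
    ∀ G : (MvPolynomial (Fin (r + 1)) R)[X][X],
      G.map (mapRingHom (MvPolynomial.map (algebraMap R K))) = F → ∀ N : R, N ≠ 0 →
      ∀ (S : Finset (HeightOneSpectrum (𝓞 k)))
        (β : ∀ v : HeightOneSpectrum (𝓞 k), (R →+* 𝓞 k ⧸ v.asIdeal) → ℝ) (B : ℝ),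
        IsTraceTwo G N B β → HasResidue S (fun v => average β N m v) 2 ρ

/-- `P₀` and `Q ≠ 0` have only monomials with `a i + b j < a b` in `x`, `y`, with coefficients homogeneous of
degree `n (a b - a i - b j)`. -/
structure IsPencil {M : Type} [Field M] {r : ℕ} (a b n : ℕ)
    (P₀ Q : (MvPolynomial (Fin (r + 1)) M)[X][X]) : Prop where
  low : IsLow a b P₀
  low' : IsLow a b Q
  ne : Q ≠ 0
  graded : IsGraded a b n P₀
  graded' : IsGraded a b n Q

section
variable {R S : Type} [CommRing R] [CommRing S] {a b : ℕ}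

theorem curve_eq {M K : Type} [Field M] [Field K] [Algebra M K] (P₀ Q : M[X][X]) (w : K) :
    curve a b P₀ Q w = mem (cur a b P₀) Q w := by
  rw [mem_eq, ← add_assoc]
  rfl

/-- the low part of a model -/
theorem exists_low (θ : R →+* S) (hθ : Function.Injective θ) {G : R[X][X]} {g : S[X][X]}
    (hg : Low a b g) (hG : G.map (mapRingHom θ) = lead S a b + g) :
    ∃ g₀ : R[X][X], Low a b g₀ ∧ G = lead R a b + g₀ ∧ g₀.map (mapRingHom θ) = g := by
  refine ⟨G - lead R a b, ?_, by ring, ?_⟩
  · intro i j hij
    refine hg i j ?_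
    have h1 : g = (G - lead R a b).map (mapRingHom θ) := by
      rw [Polynomial.map_sub, hG, lead_map]
      ring
    rw [h1, coeff_map, coe_mapRingHom, coeff_map]
    exact (map_ne_zero_iff _ hθ).2 hij
  · rw [Polynomial.map_sub, hG, lead_map]
    ring

/-- the coefficients of `y^a - x^b` -/
theorem lead_coeff (R : Type) [CommRing R] (i j : ℕ) : ((lead R a b).coeff j).coeff i =
    (if j = a ∧ i = 0 then 1 else 0) - (if j = 0 ∧ i = b then 1 else 0) := by
  unfold lead
  rw [coeff_sub, coeff_sub, coeff_X_pow, coeff_C]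
  congr 1
  · by_cases hj : j = a
    · rw [if_pos hj, coeff_one]
      by_cases hi : i = 0
      · rw [if_pos hi, if_pos ⟨hj, hi⟩]
      · rw [if_neg hi, if_neg (fun h => hi h.2)]
    · rw [if_neg hj, coeff_zero, if_neg (fun h => hj h.1)]
  · by_cases hj : j = 0
    · rw [if_pos hj, coeff_X_pow]
      by_cases hi : i = b
      · rw [if_pos hi, if_pos ⟨hj, hi⟩]
      · rw [if_neg hi, if_neg (fun h => hi h.2)]
    · rw [if_neg hj, coeff_zero, if_neg (fun h => hj h.1)]

theorem lead_graded {r : ℕ} (n : ℕ) : IsGraded a b n (lead (MvPolynomial (Fin (r + 1)) R) a b) := by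
  intro i j
  rw [lead_coeff]
  refine MvPolynomial.IsHomogeneous.sub ?_ ?_
  · split_ifs with h
    · rw [h.1, h.2, mul_zero, zero_add, mul_comm b a, Nat.sub_self, mul_zero]
      exact MvPolynomial.isHomogeneous_one _ _
    · exact MvPolynomial.isHomogeneous_zero _ _ _
  · split_ifs with h
    · rw [h.1, h.2, mul_zero, add_zero, Nat.sub_self, mul_zero]
      exact MvPolynomial.isHomogeneous_one _ _
    · exact MvPolynomial.isHomogeneous_zero _ _ _

theorem graded_map {r n : ℕ} {G : (MvPolynomial (Fin (r + 1)) R)[X][X]} (h : IsGraded a b n G)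
    (θ : R →+* S) : IsGraded a b n (G.map (mapRingHom (MvPolynomial.map θ))) := by
  intro i j
  rw [coeff_map, coe_mapRingHom, coeff_map]
  exact (h i j).map θ

end

/-- **The residue formula for the pencils `y^a - x^b + P₀ + w Q` of `C_ab` curves over `M(w)`, and for the
varieties over `M(w)` fibred in such curves over the projective space of dimension `r`, for an arbitrary
finitely generated field `M` of characteristic zero and for every model.** -/
theorem result {k : Type} [Field k] [NumberField k] {M : Type} [Field M] [CharZero M] [Algebra k M]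
    (hM : ∃ S : Finset M, Subfield.closure (S : Set M) = ⊤) {d : ℕ} (hd : Algebra.trdeg ℚ M = d)
    {K : Type} [Field K] [CharZero K] [Algebra M K] {w : K} (hw : Transcendental M w)
    (hK : IntermediateField.adjoin M {w} = ⊤)
    {a b : ℕ} (ha : 2 ≤ a) (hb : 2 ≤ b) (hab : a.Coprime b) :
    Algebra.trdeg ℚ K = (d + 1 : ℕ) ∧
    -- I. curves
    (∀ P₀ Q : M[X][X], IsLow a b P₀ → IsLow a b Q → Q ≠ 0 →
      IsDedekindDomain (AdjoinRoot (curve a b P₀ Q w)) →
      RankFormula a b P₀ Q (curve a b P₀ Q w) ∧
      ResidueOne k M (curve a b P₀ Q w) (d + 1) (rho a b P₀ Q)) ∧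
    -- II. varieties fibred over the projective space of dimension `r`
    (∀ (r n : ℕ), 1 ≤ r → 1 ≤ n → ∀ P₀ Q : (MvPolynomial (Fin (r + 1)) M)[X][X],
      IsPencil a b n P₀ Q → IsDedekindDomain (AdjoinRoot (generic (variety a b P₀ Q w))) →
      IsGraded a b n (variety a b P₀ Q w) ∧
      RankFormula a b (generic P₀) (generic Q) (generic (variety a b P₀ Q w)) ∧
      ResidueTwo k M (variety a b P₀ Q w) (d + 1) (2 + rho a b (generic P₀) (generic Q))) := by
  have hWb := cab_weil (a := a) (b := b) (le_trans one_le_two ha) (le_trans one_le_two hb) hab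
  obtain ⟨c, hc, hW⟩ := hWb
  have hwb : WB a b c := fun F _ _ g hg => hW F g hg
  have ha1 : 1 ≤ a := le_trans one_le_two ha
  have hrank : ∀ {L K₁ : Type} [Field L] [CharZero L] [Field K₁] [Algebra L K₁] {P₀ Q : L[X][X]} {ω : K₁},
      Sit a b P₀ Q ω → IsDedekindDomain (AdjoinRoot (mem (cur a b P₀) Q ω)) →
      Finite (BasePoints (X ^ a - C (X ^ b) + P₀) Q) ∧ Finite (Components Q) ∧
      Nat.card (Components Q) ≤ Nat.card (BasePoints (X ^ a - C (X ^ b) + P₀) Q) ∧
      ClassGroupHasRank (mem (cur a b P₀) Q ω) (rho a b P₀ Q) := by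
    intro L K₁ _ _ _ _ P₀ Q ω hS hD
    obtain ⟨r1, r2, r3, r4⟩ := rank_final hS
    exact ⟨r1, r2, r3, inferInstance, r4⟩
  have hrho : ∀ {L : Type} [Field L] {P₀ Q : L[X][X]},
      Nat.card (Components Q) ≤ Nat.card (BasePoints (X ^ a - C (X ^ b) + P₀) Q) →
      (((Nat.card (MaxPts (cur a b P₀) Q) : ℤ) - Nat.card (Comps Q) : ℤ)) = ((rho a b P₀ Q : ℕ) : ℤ) := by
    intro L _ P₀ Q h
    unfold rho
    rw [Nat.cast_sub h]
    rfl
  refine ⟨Pool.Agent.R410.NG.trdeg_line hd hw hK, ?_, ?_⟩
  · intro P₀ Q hP hQ hQ0 hD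
    rw [curve_eq] at hD
    have hS : Sit a b P₀ Q w :=
      { ha := ha
        hb := hb
        hab := hab
        hP := hP
        hQ := hQ
        hQ0 := hQ0
        hw := hw
        top := hK }
    obtain ⟨r1, r2, r3, r4⟩ := hrank hS hD
    rw [curve_eq]
    refine ⟨⟨r1, r2, r3, r4⟩, ?_⟩
    intro R _ _ _ _ _ _ hk G hG N hN S
    have hRK : Function.Injective (algebraMap R K) := IsFractionRing.injective R K
    obtain ⟨g₀, hg₀, rfl, -⟩ := exists_low (algebraMap R K) hRK hS.low (hG.trans mem_eq)
    have h1 := residue_curve hM hd hS hwb hc R hk hg₀ hG hN S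
    rw [hrho r3] at h1
    have e : ((((rho a b P₀ Q : ℕ) : ℤ)) : ℝ) = (rho a b P₀ Q : ℝ) := by push_cast; rfl
    rw [e] at h1
    convert h1 using 2 with v
    have hfin := Pool.Agent.H341R2.finite_v v
    unfold averageOne Pool.Agent.R410.NG.avg Pool.Agent.R410.NG.sR
    rw [← mul_neg, ← finsum_neg_distrib]
    congr 1
    refine finsum_congr fun φ => ?_
    rw [wtb_map hwb ha1 hg₀]
    unfold traceOne cnt
    ring
  · intro r n hr hn P₀ Q hPQ hD
    have hP : Low a b P₀ := hPQ.low
    have hQ : Low a b Q := hPQ.low'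
    have hQ0 := hPQ.ne
    have hPg := hPQ.graded
    have hQg := hPQ.graded'
    obtain ⟨s, rfl⟩ : ∃ s, r = s + 1 := ⟨r - 1, by omega⟩
    have hcL : CharZero (FractionRing (MvPolynomial (Fin (s + 1 + 1)) M)) :=
      charZero_of_injective_algebraMap
        (IsFractionRing.injective (MvPolynomial (Fin (s + 1 + 1)) M) _)
    have hcK : CharZero (FractionRing (MvPolynomial (Fin (s + 1 + 1)) K)) :=
      charZero_of_injective_algebraMap
        (IsFractionRing.injective (MvPolynomial (Fin (s + 1 + 1)) K) _)
    have hgQ : generic Q ≠ 0 := by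
      intro h0
      apply hQ0
      apply gm_inj (L := FractionRing (MvPolynomial (Fin (s + 1 + 1)) M))
      refine Eq.trans h0 ?_
      unfold gm
      rw [Polynomial.map_zero]
    obtain ⟨iL, h3, h1, h2⟩ := line_mv (m := s + 1 + 1)
      (L := FractionRing (MvPolynomial (Fin (s + 1 + 1)) M))
      (K₁ := FractionRing (MvPolynomial (Fin (s + 1 + 1)) K)) hw hK
    have e1 : generic (variety a b P₀ Q w) = mem (cur a b (generic P₀)) (generic Q)
        (algebraMap (MvPolynomial (Fin (s + 1 + 1)) K) (FractionRing (MvPolynomial (Fin (s + 1 + 1)) K))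
          (MvPolynomial.C w)) := gm_srm h3 a b P₀ Q
    rw [e1] at hD
    have hS : Sit a b (generic P₀) (generic Q)
        (algebraMap (MvPolynomial (Fin (s + 1 + 1)) K) (FractionRing (MvPolynomial (Fin (s + 1 + 1)) K))
          (MvPolynomial.C w)) :=
      { ha := ha
        hb := hb
        hab := hab
        hP := Low.map hP _
        hQ := Low.map hQ _
        hQ0 := hgQ
        hw := h1
        top := h2 }
    obtain ⟨r1, r2, r3, r4⟩ := hrank hS hD
    rw [e1]
    refine ⟨?_, ⟨r1, r2, r3, r4⟩, ?_⟩
    · intro i j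
      have g1 := lead_graded (R := K) (a := a) (b := b) (r := s + 1) n i j
      have g2 := graded_map hPg (algebraMap M K) i j
      have g3 := graded_map hQg (algebraMap M K) i j
      have e2 : ((variety a b P₀ Q w).coeff j).coeff i =
          ((lead (MvPolynomial (Fin (s + 1 + 1)) K) a b).coeff j).coeff i +
          ((P₀.map (mapRingHom (MvPolynomial.map (algebraMap M K)))).coeff j).coeff i +
          MvPolynomial.C w * ((Q.map (mapRingHom (MvPolynomial.map (algebraMap M K)))).coeff j).coeff i := by
        unfold variety lead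
        rw [coeff_add, coeff_add, coeff_C_mul, coeff_add, coeff_add, coeff_C_mul]
      rw [e2]
      refine (g1.add g2).add ?_
      have g4 := (MvPolynomial.isHomogeneous_C (Fin (s + 1 + 1)) w).mul g3
      rwa [zero_add] at g4
    · have hk0 : ((2 + rho a b (generic P₀) (generic Q) : ℕ) : ℝ) =
          2 + rho a b (generic P₀) (generic Q) := by push_cast; rfl
      intro R _ _ _ _ _ _ hk G hG N hN S β B hβ
      rw [hk0]
      have hRK : Function.Injective (algebraMap R K) := IsFractionRing.injective R K
      have hRK' : Function.Injective (MvPolynomial.map (σ := Fin (s + 1 + 1)) (algebraMap R K)) :=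
        MvPolynomial.map_injective _ hRK
      have hlow : Low a b (P₀.map (mapRingHom (MvPolynomial.map (algebraMap M K))) +
          C (C (MvPolynomial.C w)) * Q.map (mapRingHom (MvPolynomial.map (algebraMap M K)))) :=
        (Low.map hP _).add ((Low.map hQ _).CC _)
      obtain ⟨g₀, hg₀, rfl, -⟩ := exists_low (MvPolynomial.map (algebraMap R K)) hRK' hlow (by
        rw [hG]
        unfold variety lead
        ring)
      have hB : IsTraceTwo (lead (MvPolynomial (Fin (s + 1 + 1)) R) a b + g₀) N |B| β := by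
        intro v φ hφ hφ'
        exact (hβ v φ hφ hφ').trans (mul_le_mul_of_nonneg_right (le_abs_self B) (Real.sqrt_nonneg _))
      have h5 := residue_srm (L := FractionRing (MvPolynomial (Fin (s + 1 + 1)) M)) hM hd hw hK ha hb hab
        hP hQ hQ0 hwb hc (FractionRing (MvPolynomial (Fin (s + 1 + 1)) K)) hk hg₀ hG hN S β (abs_nonneg B)
        hB
      have h6 := hrho r3
      have e3 : ((2 + ((Nat.card (MaxPts (cur a b (gm (FractionRing (MvPolynomial (Fin (s + 1 + 1)) M)) P₀))
          (gm (FractionRing (MvPolynomial (Fin (s + 1 + 1)) M)) Q)) : ℤ) -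
          Nat.card (Comps (gm (FractionRing (MvPolynomial (Fin (s + 1 + 1)) M)) Q))) : ℤ) : ℝ) =
          2 + rho a b (generic P₀) (generic Q) := by
        have h7 : ((Nat.card (MaxPts (cur a b (gm (FractionRing (MvPolynomial (Fin (s + 1 + 1)) M)) P₀))
          (gm (FractionRing (MvPolynomial (Fin (s + 1 + 1)) M)) Q)) : ℤ) -
          Nat.card (Comps (gm (FractionRing (MvPolynomial (Fin (s + 1 + 1)) M)) Q)) : ℤ) =
          ((rho a b (generic P₀) (generic Q) : ℕ) : ℤ) := h6
        rw [h7]
        push_cast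
        rfl
      rw [e3] at h5
      exact h5

end Pool.Agent.Results.MP_6090f9_nt.CabPencils
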