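import Pool.Agent.T2H55.KV.Nd
import Pool.Agent.Results.MP_6090f9_nt.ProductsOfPencils

/-!
# The residue formula for the Kummer varieties of the curves of linear pencils

Let `M` be a finitely generated field of characteristic zero and of transcendence degree `d` over `ℚ`,
which contains the number field `k`, and let `K = M(w)` be the field of rational functions over `M`: the
function field of a variety over `k` of dimension `d + 1`.  Let `C_i : Y² = F_i(X)`, for `i < m`, `m ≥ 2`, be
hyperelliptic (or elliptic) curves over `K` of the genera `g_i`, where `F_i = c_i + w b_i` with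
`b_i, c_i ∈ M[X]`, `c_i` monic of degree `2 g_i + 1`, `deg b_i ≤ 2 g_i` and `b_i ≠ 0`.

Let `ι = (ι_1, ..., ι_m)` be the product of the hyperelliptic involutions of the `C_i`, and let `Z` be the
set of its fixed points: the tuples `(P_i)` where every `P_i` is a Weierstrass point of `C_i`, that is, the
point at infinity or a point `(x_i, 0)` with `F_i(x_i) = 0`.  Let `V` be the quotient of the blow up of
`C_1 × ... × C_m` at `Z` by `ι`.  It is a smooth projective variety over `K` of dimension `m`: the Kummer
variety.  For `m = 2` it is the minimal resolution of the double covering `z² = F_1(x) F_2(y)` of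
`ℙ¹ × ℙ¹`, and for `m = 2` and the genera `1` it is the Kummer surface (a K3 surface) of the product of two
elliptic curves.

As `ι` acts trivially on `H²(C_1 × ... × C_m)`, one has
`H²(V) = H²(C_1 × ... × C_m) ⊕ ℚ_ℓ(-1)^Z` and `NS(V) ⊗ ℚ = NS(C_1 × ... × C_m) ⊗ ℚ ⊕ ℚ^Z` as Galois
modules, where `Z` corresponds to the exceptional divisors.

The algebraic side.  Let `J_i` be the Jacobian of `C_i`.  Then
`rank NS(V/K) = m + ∑_{i < j} rank Hom_K(J_i, J_j) + #(the Galois orbits on Z)`, with
`Hom_K(J_i, J_j) = J_j(K(C_i)) / J_j(K)`, so that it is `m + ∑_{i < j} (r_{ij} - r_j) + orbits` with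
the ranks `r_j` of `J_j(K)` and `r_{ij}` of `J_j(K(C_i))`.  For every field `K₁ ⊇ K` the group `J_j(K₁)` is
the class group of the ring `K₁[X, Y] / (Y² - F_j(X))`.  These ranks are finite, and

* `r_j` is the number of the monic irreducible divisors `δ` of `b_j` in `M[X]` such that `c_j` is a nonzero
  square modulo `δ`;
* `r_{ij} = σ - ε`, for the function field `M(x)`, where `σ` is the number of the
  monic irreducible `δ ∈ M(x)[X]` such that `a T² + c`, with `a = b_j(X) / b_i(x)` and
  `c = c_j(X) - (c_i(x) / b_i(x)) b_j(X)`, is modulo `δ` the square of a nonzero polynomial `r T + s`, and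
  `ε = 1` if `a` is a square, and `ε = 0` otherwise;
* the Galois orbits on the tuples in `Z` whose components outside of the set `T` of indices are the points
  at infinity correspond to the closed points of the zero set of the `F_i(x_i)`, `i ∈ T`, in the affine
  space over `K` with the coordinates `x_i`, `i ∈ T`: to the maximal ideals of `K[x_i : i ∈ T]` which contain
  the `F_i(x_i)`.

The analytic side: for every model of `K` and of the curves over the integers of `k`, the series of the
averages `𝔅_v` of the traces of the Frobenius on `H²` of the fibres of `V` has the residue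
`rank NS(V/K)` at `s = 2`.
-/

set_option autoImplicit false

namespace Pool.Agent.Results.MP_6090f9_nt.KummerVarieties

open Polynomial NumberField IsDedekindDomain
open Pool.Agent.Y707.PR (HasResidue)

/-- The polynomial `c(X) + w b(X)` over `K`. -/
noncomputable def pencil {M K : Type} [Field M] [Field K] [Algebra M K] (b c : M[X]) (w : K) : K[X] :=
  c.map (algebraMap M K) + C w * b.map (algebraMap M K)

/-- Modulo `δ`, the polynomial `a T² + b T + c` is the square of a nonzero polynomial `r T + s`. -/
def IsSplit {M : Type} [Field M] (a b c δ : M[X]) : Prop :=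
  ∃ r s : M[X], δ ∣ a - r ^ 2 ∧ δ ∣ b - 2 * r * s ∧ δ ∣ c - s ^ 2 ∧ ¬ (δ ∣ r ∧ δ ∣ s)

/-- The number of the monic irreducible polynomials over which the conic splits. -/
noncomputable def sigma {M : Type} [Field M] (a b c : M[X]) : ℕ :=
  Nat.card {δ : M[X] // δ.Monic ∧ Irreducible δ ∧ IsSplit a b c δ}

open Classical in
/-- `σ - 1` if `a` is a nonzero square, and `σ` otherwise. -/
noncomputable def rho {M : Type} [Field M] (a b c : M[X]) : ℕ :=
  sigma a b c - if a ≠ 0 ∧ IsSquare a then 1 else 0

/-- The polynomial `b(x)⁻¹ b'(X)` over `M(x)`. -/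
noncomputable def overB {M : Type} [Field M] (b b' : M[X]) : (RatFunc M)[X] :=
  C (aeval (RatFunc.X : RatFunc M) b)⁻¹ * b'.map (algebraMap M (RatFunc M))

/-- The polynomial `c'(X) - (c(x) / b(x)) b'(X)` over `M(x)`. -/
noncomputable def overC {M : Type} [Field M] (b c b' c' : M[X]) : (RatFunc M)[X] :=
  c'.map (algebraMap M (RatFunc M)) -
    C (aeval (RatFunc.X : RatFunc M) c * (aeval (RatFunc.X : RatFunc M) b)⁻¹) *
      b'.map (algebraMap M (RatFunc M))

/-- The rank of the class group of the ring `K[X, Y] / (Y² - F(X))`. -/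
def ClassGroupHasRank {K : Type} [Field K] (F : K[X]) (n : ℕ) : Prop :=
  ∃ _ : IsDomain (AdjoinRoot (X ^ 2 - C F : K[X][X])),
    Module.rank ℤ (Additive (ClassGroup (AdjoinRoot (X ^ 2 - C F : K[X][X])))) = n

/-- `K₁ = K(x, y)` is the function field of the curve `y² = F(x)`. -/
def IsFunctionField {K K₁ : Type} [Field K] [Field K₁] [Algebra K K₁] (F : K[X]) (x y : K₁) : Prop :=
  Transcendental K x ∧ y ^ 2 = aeval x F ∧ IntermediateField.adjoin K {x, y} = ⊤

/-- The number of the closed points of the zero set of the polynomials `F_i(x_i)`, `i ∈ T`, in the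
affine space over `K` with the coordinates `x_i`, `i ∈ T`. -/
noncomputable def closedPoints {K : Type} [Field K] {m : ℕ} (F : Fin m → K[X])
    (T : Finset (Fin m)) : ℕ :=
  Nat.card {I : Ideal (MvPolynomial {i // i ∈ T} K) // I.IsMaximal ∧
    ∀ i : {i // i ∈ T}, aeval (MvPolynomial.X i : MvPolynomial {i // i ∈ T} K) (F i.1) ∈ I}

/-- The number of the Galois orbits on `Z`: on the tuples `(P_i)` of Weierstrass points of the curves
`Y² = F_i(X)`.  Here `T` is the set of the `i` for which `P_i` is not the point at infinity. -/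
noncomputable def orbits {K : Type} [Field K] {m : ℕ} (F : Fin m → K[X]) : ℕ :=
  ∑ T : Finset (Fin m), closedPoints F T

/-- The trace of the Frobenius on `H¹` of the curve `Y² = g(X)` over the finite field `F`, for a monic
polynomial `g` of odd degree without multiple roots: the number of the elements of `F` minus the number of
the affine points. -/
noncomputable def traceOne (F : Type) [Field F] (g : F[X]) : ℝ :=
  (Nat.card F : ℝ) - Nat.card {P : F × F // P.2 ^ 2 = g.eval P.1}

/-- The number of the rational Weierstrass points of the curve `Y² = g(X)`: the rational roots of `g` and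
the point at infinity. -/
noncomputable def weierstrass (F : Type) [Field F] (g : F[X]) : ℝ :=
  1 + Nat.card {x : F // g.eval x = 0}

/-- The trace of the Frobenius on `H²` of the Kummer variety of the curves `Y² = p_i(X)`, `i < m`:
`m q + ∑_{i < j} a_i a_j + q #Z(F)`. -/
noncomputable def traceTwo {m : ℕ} (F : Type) [Field F] (p : Fin m → F[X]) : ℝ :=
  (m : ℝ) * Nat.card F + (∑ i, ∑ j, if i < j then traceOne F (p i) * traceOne F (p j) else 0) +
    Nat.card F * ∏ i, weierstrass F (p i)

/-- The average `𝔅_v = q_v^{-n} ∑ b(fibre)` of the traces on `H²` of the fibres of the Kummer variety of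
the curves `Y² = G_i(X)` over the points of `Spec R` above `v`, rational over the residue field of `v`, at
which `N` does not vanish. -/
noncomputable def average {k R : Type} [Field k] [NumberField k] [CommRing R] [Algebra (𝓞 k) R] {m : ℕ}
    (G : Fin m → R[X]) (N : R) (n : ℕ) (v : HeightOneSpectrum (𝓞 k)) : ℝ :=
  ((Nat.card (𝓞 k ⧸ v.asIdeal) : ℝ) ^ n)⁻¹ *
    ∑ᶠ φ : {φ : R →+* 𝓞 k ⧸ v.asIdeal //
      φ.comp (algebraMap (𝓞 k) R) = Ideal.Quotient.mk v.asIdeal ∧ φ N ≠ 0},
        traceTwo (𝓞 k ⧸ v.asIdeal) fun i => (G i).map φ.1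

/-- The rank `m + ∑_{i < j} (r_{ij} - r_j) + orbits` of the Néron-Severi group of `V` over `K = M(w)`. -/
noncomputable def rankNS {M K : Type} [Field M] [Field K] [Algebra M K] {m : ℕ} (b c : Fin m → M[X])
    (w : K) : ℤ :=
  m + (∑ i, ∑ j, if i < j then
    ((rho (overB (b i) (b j)) 0 (overC (b i) (c i) (b j) (c j)) : ℤ) - rho 0 (b j) (c j)) else 0) +
    orbits fun i => pencil (b i) (c i) w

/-- **The residue formula for the Kummer varieties of the hyperelliptic curves
`Y² = c_i(X) + w b_i(X)` over `M(w)`, for an arbitrary finitely generated field `M` of characteristic zero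
and for every model.** -/
theorem result {k : Type} [Field k] [NumberField k] {M : Type} [Field M] [CharZero M] [Algebra k M]
    (hM : ∃ S : Finset M, Subfield.closure (S : Set M) = ⊤) {d : ℕ} (hd : Algebra.trdeg ℚ M = d)
    {K : Type} [Field K] [CharZero K] [Algebra M K] {w : K} (hw : Transcendental M w)
    (hK : IntermediateField.adjoin M {w} = ⊤)
    {m : ℕ} (_hm : 2 ≤ m) {g : Fin m → ℕ} {b c : Fin m → M[X]} (hc : ∀ i, (c i).Monic)
    (hcd : ∀ i, (c i).natDegree = 2 * g i + 1) (hb : ∀ i, (b i).natDegree < 2 * g i + 1)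
    (hb0 : ∀ i, b i ≠ 0) (hs : ∀ i, (pencil (b i) (c i) w).Separable) :
    Algebra.trdeg ℚ K = (d + 1 : ℕ) ∧
    (∀ i, (pencil (b i) (c i) w).Monic ∧ (pencil (b i) (c i) w).natDegree = 2 * g i + 1) ∧
    -- the algebraic side: the rank of `J_j(K)`
    (∀ j, ClassGroupHasRank (pencil (b j) (c j) w) (rho 0 (b j) (c j))) ∧
    -- the algebraic side: the rank of `J_j(K(C_i))`, for the function field `K(C_i)` of `C_i`
    (∀ i j, ∀ (K₁ : Type) [Field K₁] [Algebra K K₁] (x y : K₁),
      IsFunctionField (pencil (b i) (c i) w) x y →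
        ClassGroupHasRank ((pencil (b j) (c j) w).map (algebraMap K K₁))
          (rho (overB (b i) (b j)) 0 (overC (b i) (c i) (b j) (c j)))) ∧
    -- the function fields exist
    (∀ i, ∃ (K₁ : Type) (_ : Field K₁) (_ : Algebra K K₁) (x y : K₁),
      IsFunctionField (pencil (b i) (c i) w) x y) ∧
    -- the analytic side: the residue at `s = 2` of the series of the `𝔅_v`, for every model
    ∀ (R : Type) [CommRing R] [IsDomain R] [Algebra.FiniteType ℤ R] [Algebra R K]
      [IsFractionRing R K] [Algebra (𝓞 k) R],
      (∀ z : 𝓞 k, algebraMap R K (algebraMap (𝓞 k) R z) = algebraMap M K (algebraMap k M z)) →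
      ∀ G : Fin m → R[X], (∀ i, (G i).Monic) →
        (∀ i, (G i).map (algebraMap R K) = pencil (b i) (c i) w) →
          ∀ N : R, N ≠ 0 → ∀ S : Finset (HeightOneSpectrum (𝓞 k)),
            HasResidue S (fun v => average G N (d + 1) v) 2 (rankNS b c w) := by
  classical
  have hcv : ∀ i, ProductsOfPencils.curve 0 (b i) (c i) w = pencil (b i) (c i) w := by
    intro i
    unfold ProductsOfPencils.curve pencil
    rw [Polynomial.map_zero, mul_zero, add_zero]
  obtain ⟨h1, h2, h3, h4, h5, h6⟩ := ProductsOfPencils.result (k := k) hM hd hw hK hc hcd hb hb0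
    (fun i => by rw [hcv]; exact hs i)
  simp only [hcv] at h2 h3 h4 h5 h6
  refine ⟨h1, h2, h3, h4, h5, ?_⟩
  intro R _ _ _ _ _ _ hk G hG hGK N hN S
  have e1 := h6 R hk G hG hGK N hN S
  have hKF : Pool.Agent.R410.LW.FG K := Pool.Agent.R410.NG.fg_line hM hK
  have e2 := Pool.Agent.R410.NG.residue_shift
    (Pool.Agent.T2H55.KV.residue_nodes (k := k) hKF h1 hG hGK hN S)
  have e3 := Pool.Agent.R410.NG.residue_add e1 e2
  have e4 : (fun v : HeightOneSpectrum (𝓞 k) => ProductsOfPencils.average G N (d + 1) v +
      (Ideal.absNorm v.asIdeal : ℝ) *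
        Pool.Agent.R410.NG.avg (Pool.Agent.T2H55.KV.wk m) G N (d + 1) v) =
      fun v => average G N (d + 1) v := by
    funext v
    have hfv := Pool.Agent.H341R2.finite_v v
    have hfin : Finite (R →+* 𝓞 k ⧸ v.asIdeal) := inferInstance
    have hqn : (Ideal.absNorm v.asIdeal : ℝ) = (Nat.card (𝓞 k ⧸ v.asIdeal) : ℝ) := rfl
    unfold Pool.Agent.R410.NG.avg Pool.Agent.R410.NG.sR average ProductsOfPencils.average
    rw [hqn, mul_left_comm, ← mul_add, mul_finsum]
    congr 1
    rw [← finsum_add_distrib (Set.toFinite _) (Set.toFinite _)]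
    exact finsum_congr fun φ => rfl
  rw [e4] at e3
  have e5 : ((ProductsOfPencils.rankNS b c : ℤ) : ℝ) +
      ((Pool.Agent.T2H55.KV.nodes (fun i => pencil (b i) (c i) w) : ℤ) : ℝ) =
      ((rankNS b c w : ℤ) : ℝ) := by
    rw [← Int.cast_add]
    rfl
  rw [e5] at e3
  exact e3

end Pool.Agent.Results.MP_6090f9_nt.KummerVarieties
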