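import Pool.Agent.T2H28.EC.Fin
import Pool.Agent.X288.L2.Inst

/-!
# The residue formula for Frobenius averages: products with modular elliptic curves

`f : 𝒳 → 𝒴` is a fibration over a number field `K`, given over an affine open part of `𝒴` over which the
fibres are smooth, `B` is the `K(𝒴)/K`-trace of the Picard variety of the generic fibre, and
`E_i : y² = x³ + a_i x + b_i` are modular elliptic curves over `ℚ`, pairwise not isogenous.  The theorem
compares the residues of Q1 for the fibrations `𝒳 × E_i → 𝒴` with the residue for `𝒳 × ℙ¹ → 𝒴`, for which the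
rank in Q1 is `rank NS(X / K(𝒴)) + 1`.  With the values `z_v = 𝔅_v / q_v`, the function
`(s - 1) ∑ z_v (log q_v) q_v^{-s}` (`residue`) is the value of `(s' - 2) F(s')` at `s' = s + 1`, and if it has a
limit for `s → 1+`, then the logarithmic average `(∑ z_v q_v^{-(1+ε)}) / log (1/ε)` (`logResidue`) has the same
limit for `ε → 0+`.  The definitions are in `Pool.Agent.W353.FB.Defs`, `Pool.Agent.Y722.EP.Defs` and
`Pool.Agent.T2H28.EC.Defs`.
-/

set_option autoImplicit false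

namespace Pool.Agent.Results.MP_6090f9_nt.ModularEllipticFactors

open NumberField IsDedekindDomain Filter Topology
open Pool.Agent.W353.FB
open Pool.Agent.Y722.EP (IsModular NotIsogenous)
open Pool.Agent.T2H28.EC

/-- **Products of a fibration with modular elliptic curves.**  Let `B` be the trace (`HasTrace`), so that
`|a_v(B)| ≤ N √q_v` for `N = 2 dim B`, and let `z₀` be the values `𝔅_v / q_v` for `𝒳 × ℙ¹ → 𝒴`, `c` the values
`a_v(B)² / q_v` and `z_i` the values `𝔅_v / q_v` for `𝒳 × E_i → 𝒴`, off finite sets of primes.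
0. The residues are the limits of the logarithmic averages, if the residues exist; the logarithmic
average of `c` is at most `N² + o(1)`; and all quadratic twists of `X_0(11)` (`a = -13392 d²`,
`b = -1080432 d³`) and of `X_0(14)` (`a = 5805 d²`, `b = -285714 d³`) are modular.
1. (No continuation is assumed.)  For finitely many `E_i`, and the logarithmic averages `L_i`, `L_0`, `M` of
`z_i`, `z₀` and `c`: `∑ max(L_i - L_0, 0)² ≤ [K : ℚ] M + η` and `∑ max(L_0 - L_i, 0)² ≤ [K : ℚ] M + η` for all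
`ε > 0` close to `0`.
2. Let the residues `x_i` and `x₀` exist, and let `y` be `N²` or the residue for `c`, if it exists.  In an
arbitrary family the sums of the `max(x_i - x₀, 0)²` and of the `max(x₀ - x_i, 0)²` are at most `[K : ℚ] y`, and
one has `|x_i - x₀| < η` except for at most `2 [K : ℚ] y / η²` of the curves `E_i`.
3. If the residues `x_i` exist for an infinite family, then the logarithmic averages for `𝒳 × ℙ¹` have a
limit `x₀`, and the `x_i` converge to `x₀`.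
4. If `B = 0`, then for every curve `C` over `K` (a bound `G √q_v` for the traces on `H¹(C)` is all that is
used) the difference of `(s - 1) ∑ z_v (log q_v) q_v^{-s}` for `𝒳 × C` and for `𝒳 × ℙ¹` converges to zero. -/
theorem result (K : Type) [Field K] [NumberField K] (f : Fibration K) {n : ℕ}
    (B : Set (MvPolynomial (Fin n) (𝓞 K))) (g N : ℕ) (hg : 1 ≤ g) (hB : HasTrace f B g N)
    (R₀ : Finset (HeightOneSpectrum (𝓞 K))) (z₀ : HeightOneSpectrum (𝓞 K) → ℝ)
    (hz₀ : IsSystem (productValue f lineTrace) R₀ z₀)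
    (R₁ : Finset (HeightOneSpectrum (𝓞 K))) (c : HeightOneSpectrum (𝓞 K) → ℝ)
    (hc : IsSystem (squareValue B g) R₁ c) :
    ((∀ (P : LocalValue K) (R : Finset (HeightOneSpectrum (𝓞 K)))
        (z : HeightOneSpectrum (𝓞 K) → ℝ), IsSystem P R z → ∀ x : ℝ,
        Tendsto (residue R z) (𝓝[>] 1) (𝓝 x) → Tendsto (logResidue R z) (𝓝[>] 0) (𝓝 x)) ∧
      (∀ η : ℝ, 0 < η → ∀ᶠ ε : ℝ in 𝓝[>] 0, logResidue R₁ c ε ≤ (N : ℝ) ^ 2 + η) ∧
      ∀ d : ℤ, d ≠ 0 → IsModular (-13392 * d ^ 2) (-1080432 * d ^ 3) ∧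
        IsModular (5805 * d ^ 2) (-285714 * d ^ 3)) ∧
    (∀ (ι : Type) [Fintype ι] (a b : ι → ℤ), (∀ i, 4 * a i ^ 3 + 27 * b i ^ 2 ≠ 0) →
      (∀ i, IsModular (a i) (b i)) →
      (∀ i j, i ≠ j → NotIsogenous (a i) (b i) (a j) (b j)) →
      ∀ (R : ι → Finset (HeightOneSpectrum (𝓞 K))) (z : ι → HeightOneSpectrum (𝓞 K) → ℝ),
      (∀ i, IsSystem (productValue f (ellipticTrace (a i) (b i))) (R i) (z i)) →
      ∀ η : ℝ, 0 < η → ∀ᶠ ε : ℝ in 𝓝[>] 0,
        ∑ i, (max (logResidue (R i) (z i) ε - logResidue R₀ z₀ ε) 0) ^ 2 ≤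
          Module.finrank ℚ K * logResidue R₁ c ε + η ∧
        ∑ i, (max (logResidue R₀ z₀ ε - logResidue (R i) (z i) ε) 0) ^ 2 ≤
          Module.finrank ℚ K * logResidue R₁ c ε + η) ∧
    (∀ (ι : Type) (a b : ι → ℤ), (∀ i, 4 * a i ^ 3 + 27 * b i ^ 2 ≠ 0) →
      (∀ i, IsModular (a i) (b i)) →
      (∀ i j, i ≠ j → NotIsogenous (a i) (b i) (a j) (b j)) →
      ∀ (R : ι → Finset (HeightOneSpectrum (𝓞 K))) (z : ι → HeightOneSpectrum (𝓞 K) → ℝ),
      (∀ i, IsSystem (productValue f (ellipticTrace (a i) (b i))) (R i) (z i)) →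
      ∀ (x : ι → ℝ), (∀ i, Tendsto (residue (R i) (z i)) (𝓝[>] 1) (𝓝 (x i))) →
      (∀ (x₀ y : ℝ), Tendsto (residue R₀ z₀) (𝓝[>] 1) (𝓝 x₀) →
        (y = (N : ℝ) ^ 2 ∨ Tendsto (residue R₁ c) (𝓝[>] 1) (𝓝 y)) →
        (∀ S : Finset ι, ∑ i ∈ S, (max (x i - x₀) 0) ^ 2 ≤ Module.finrank ℚ K * y ∧
          ∑ i ∈ S, (max (x₀ - x i) 0) ^ 2 ≤ Module.finrank ℚ K * y) ∧
        ∀ η : ℝ, 0 < η → {i | η ≤ |x i - x₀|}.Finite ∧
          ({i | η ≤ |x i - x₀|}.ncard : ℝ) ≤ 2 * (Module.finrank ℚ K * y) / η ^ 2) ∧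
      (Infinite ι → ∃ x₀ : ℝ, Tendsto (logResidue R₀ z₀) (𝓝[>] 0) (𝓝 x₀) ∧
        Tendsto x cofinite (𝓝 x₀))) ∧
    (N = 0 → ∀ (E : LocalValue K) (G : ℝ),
      (∀ᶠ v : HeightOneSpectrum (𝓞 K) in cofinite, ∀ (κ : Type) [Field κ] (φ : 𝓞 K →+* κ)
        (e : ℝ), RingHom.ker φ = v.asIdeal → Nat.card κ = Ideal.absNorm v.asIdeal → E κ φ e →
          |e| ≤ G * Real.sqrt (Nat.card κ)) →
      ∀ (R : Finset (HeightOneSpectrum (𝓞 K))) (z : HeightOneSpectrum (𝓞 K) → ℝ),
      IsSystem (productValue f E) R z →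
        Tendsto (fun s : ℝ => residue R z s - residue R₀ z₀ s) (𝓝[>] 1) (𝓝 0)) := by
  refine ⟨⟨fun P R z h x hx => residue_log h hx, fun η hη => square_le hg hB hc hη,
    fun d hd => ⟨Pool.Agent.X288.L2.modular11 hd, Pool.Agent.X288.L2.modular14 hd⟩⟩, ?_, ?_, ?_⟩
  · intro ι _ a b hΔ hmod hne R z hz η hη
    have h1 := main_sum hg hB Finset.univ a b (fun i _ => hΔ i) (fun i _ => hmod i)
      (fun i _ j _ => hne i j) R z R₀ R₁ z₀ c (fun i _ => hz i) hz₀ hc (σ := 1) (by simp) hη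
    have h2 := main_sum hg hB Finset.univ a b (fun i _ => hΔ i) (fun i _ => hmod i)
      (fun i _ j _ => hne i j) R z R₀ R₁ z₀ c (fun i _ => hz i) hz₀ hc (σ := -1) (by simp) hη
    filter_upwards [h1, h2] with ε h3 h4
    simp only [one_mul] at h3
    simp only [neg_one_mul, neg_sub] at h4
    exact ⟨h3, h4⟩
  · intro ι a b hΔ hmod hne R z hz x hx
    have hx' : ∀ i, Tendsto (logResidue (R i) (z i)) (𝓝[>] 0) (𝓝 (x i)) :=
      fun i => residue_log (hz i) (hx i)
    refine ⟨fun x₀ y hx₀ hy => ?_, fun hι => ?_⟩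
    · have hx₀' := residue_log hz₀ hx₀
      have hy' : ∀ η : ℝ, 0 < η → ∀ᶠ ε : ℝ in 𝓝[>] 0, logResidue R₁ c ε ≤ y + η := by
        intro η hη
        rcases hy with rfl | hy
        · exact square_le hg hB hc hη
        · exact ((residue_log hc hy).eventually_lt_const (lt_add_of_pos_right y hη)).mono
            fun ε h => h.le
      have key : ∀ S : Finset ι, ∑ i ∈ S, (max (x i - x₀) 0) ^ 2 ≤ Module.finrank ℚ K * y ∧
          ∑ i ∈ S, (max (-(x i - x₀)) 0) ^ 2 ≤ Module.finrank ℚ K * y := fun S =>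
        main_lim hg hB S a b (fun i _ => hΔ i) (fun i _ => hmod i) (fun i _ j _ => hne i j)
          R z R₀ R₁ z₀ c (fun i _ => hz i) hz₀ hc hy' (fun i _ => hx' i) hx₀'
      refine ⟨fun S => ⟨(key S).1, ?_⟩, fun η hη => count hη key⟩
      have h := (key S).2
      simp only [neg_sub] at h
      exact h
    · exact main_inf hg hB a b hΔ hmod hne R z R₀ R₁ z₀ c hz hz₀ hc hx'
  · rintro rfl E G hE R z hz
    exact main_zero hB hE hz hz₀

end Pool.Agent.Results.MP_6090f9_nt.ModularEllipticFactors
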