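import Pool.Agent.T2H28.OD.Main

/-!
# The residue formula for Frobenius averages over all number fields: disjoint fields and few orbits

`f : 𝒳 → 𝒴` is a fibration over a number field `K`, given over an affine open part of `𝒴` over which the
fibres are smooth, and `W` is the space `NS(X / K̄(𝒴)) ⊗ ℚ` with the action of the absolute Galois group
of `K`, for the generic fibre `X`.  For a number field `F ⊇ K` the rank of `NS(X / F(𝒴))` is
`dim W^{Gal(K̄/F)}`, and Q1 for `f` over `F` says that the residue at `s = 2` of the Dirichlet series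
`F(s) = ∑ 𝔅_v (log q_v) q_v^{-s}` over the primes `v` of `F` is this rank.  With the values
`z_v = 𝔅_v / q_v`, `(s - 1) ∑ z_v (log q_v) q_v^{-s}` is the value of `(s' - 2) F(s')` at `s' = s + 1`.

Let `r(F)` be the number of the orbits of the Galois group on the pairs of the embeddings of `F` over `K`
(`r(F) ≤ [F : K]`, and for example `r(F) = 2` for all fields of arbitrary degree with a doubly transitive Galois
group).  The theorem compares the deviation from Q1 over `F` with the deviation over `K`, for families of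
number fields of arbitrary degrees: explicitly for families such that the tensor product of any two of the
fields is a field, and for all fields with `r(F) ≤ c` outside a finite Galois extension of `K`.
The definitions are in `Pool.Agent.W353.FB.Defs`, `Pool.Agent.W353.TD.Defs`, `Pool.Agent.X288.L2.Defs` and
`Pool.Agent.T2H28.OD.Mean` (`Independent`).
-/

set_option autoImplicit false

namespace Pool.Agent.Results.MP_6090f9_nt.OrbitsAndDisjointFields

open NumberField IsDedekindDomain Filter Topology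
open Pool.Agent.W353.FB
open Pool.Agent.W353.TD (rank)
open Pool.Agent.X288.L2 (pairOrbits)
open Pool.Agent.T2H28.OD (Independent)

/-- **The residues of a fibration over number fields of arbitrary degrees.**  Let `W` be a part of the
values `z_v = 𝔅_v / q_v` of the fibration `f`, given by `N` numbers of absolute value `≤ 1`, and
`s = N - dim W`.  For a number field `F ⊇ K` let `D_F(u) = (u - 1) ∑ z_v (log q_v) q_v^{-u} - rank NS(X/F(𝒴))`
(the sum over the primes of `F` outside any finite set), and let `D_F` be its limit for `u → 1+`, if it exists (the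
deviation from Q1 over `F`).
1. (No continuation is assumed.)  For finitely many number fields `F_k ⊋ K` such that the tensor product over `K` of
any two of them is a field, and every `η > 0`: `∑ (D_{F_k}(u) - D_K(u))² / (r(F_k) - 1) ≤ s² + η` for all
`u > 1` close to `1`; and the same holds for the averages `T⁻¹ ∑_{q_v ≤ T} z_v log q_v`, for large `T`.
2. So, if the residues exist, in an infinite family of such fields with `r(F_k) ≤ c`, of arbitrary
degrees, one has `|D_{F_k} - D_K| < η` except for at most `s² (c - 1) / η²` of the fields.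
3. For every `c` and `η > 0` there is a finite Galois extension `M` of `K` with `|D_F - D_{F ∩ M}| < η` for
all number fields `F ⊇ K` with `r(F) ≤ c`, if the residues exist over `F` and `F ∩ M`.
4. For every `c` and `η > 0`, there are only finitely many number fields `F ⊇ K` without proper intermediate fields, with
`r(F) ≤ c` and with `|D_F - D_K| ≥ η`. -/
theorem result (K : Type) [Field K] [NumberField K] (f : Fibration K) (N : ℕ)
    (W : Type) [AddCommGroup W] [Module ℚ W] [FiniteDimensional ℚ W]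
    (ρ : Representation ℚ Gal(AlgebraicClosure K/K) W)
    (hW : IsPartOf (degreeTwoValue f) N ρ) :
    (∀ (κ : Type) [Fintype κ] (F : κ → IntermediateField K (AlgebraicClosure K))
      [∀ k, NumberField (F k)] (R : ∀ k, Finset (HeightOneSpectrum (𝓞 (F k))))
      (b : ∀ k, HeightOneSpectrum (𝓞 (F k)) → ℝ) (R₀ : Finset (HeightOneSpectrum (𝓞 K)))
      (b₀ : HeightOneSpectrum (𝓞 K) → ℝ), (∀ k, IsSystem (degreeTwoValue f) (R k) (b k)) →
      IsSystem (degreeTwoValue f) R₀ b₀ → (∀ k, 2 ≤ pairOrbits K (F k)) →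
      (∀ k k', k ≠ k' → Independent K (F k) (F k')) → ∀ η : ℝ, 0 < η →
        (∀ᶠ u : ℝ in 𝓝[>] 1, ∑ k, ((residue (R k) (b k) u - rank ρ (F k)) -
          (residue R₀ b₀ u - rank ρ (⊥ : IntermediateField K (AlgebraicClosure K)))) ^ 2 /
            ((pairOrbits K (F k) : ℝ) - 1) ≤ ((N - Module.finrank ℚ W : ℕ) : ℝ) ^ 2 + η) ∧
        ∀ᶠ T : ℕ in atTop, ∑ k, ((average (R k) (b k) T - rank ρ (F k)) -
          (average R₀ b₀ T - rank ρ (⊥ : IntermediateField K (AlgebraicClosure K)))) ^ 2 /
            ((pairOrbits K (F k) : ℝ) - 1) ≤ ((N - Module.finrank ℚ W : ℕ) : ℝ) ^ 2 + η) ∧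
    (∀ (κ : Type) (F : κ → IntermediateField K (AlgebraicClosure K))
      [∀ k, NumberField (F k)] (R : ∀ k, Finset (HeightOneSpectrum (𝓞 (F k))))
      (b : ∀ k, HeightOneSpectrum (𝓞 (F k)) → ℝ) (R₀ : Finset (HeightOneSpectrum (𝓞 K)))
      (b₀ : HeightOneSpectrum (𝓞 K) → ℝ), (∀ k, IsSystem (degreeTwoValue f) (R k) (b k)) →
      IsSystem (degreeTwoValue f) R₀ b₀ → ∀ c : ℕ,
      (∀ k, 2 ≤ pairOrbits K (F k) ∧ pairOrbits K (F k) ≤ c) →
      (∀ k k', k ≠ k' → Independent K (F k) (F k')) → ∀ (x : κ → ℝ) (x₀ : ℝ),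
      (∀ k, Tendsto (residue (R k) (b k)) (𝓝[>] 1) (𝓝 (x k))) →
      Tendsto (residue R₀ b₀) (𝓝[>] 1) (𝓝 x₀) → ∀ η : ℝ, 0 < η →
        {k | η ≤ |(x k - rank ρ (F k)) -
          (x₀ - rank ρ (⊥ : IntermediateField K (AlgebraicClosure K)))|}.Finite ∧
        ({k | η ≤ |(x k - rank ρ (F k)) -
          (x₀ - rank ρ (⊥ : IntermediateField K (AlgebraicClosure K)))|}.ncard : ℝ) ≤
            ((N - Module.finrank ℚ W : ℕ) : ℝ) ^ 2 * ((c - 1 : ℕ) : ℝ) / η ^ 2) ∧
    ∀ (c : ℕ) (η : ℝ), 0 < η →
      (∃ M : IntermediateField K (AlgebraicClosure K), FiniteDimensional K M ∧ IsGalois K M ∧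
        ∀ (F F' : IntermediateField K (AlgebraicClosure K)) [NumberField F] [NumberField F'],
          F' = F ⊓ M → pairOrbits K F ≤ c →
          ∀ (R : Finset (HeightOneSpectrum (𝓞 F))) (b : HeightOneSpectrum (𝓞 F) → ℝ)
            (R' : Finset (HeightOneSpectrum (𝓞 F'))) (b' : HeightOneSpectrum (𝓞 F') → ℝ),
          IsSystem (degreeTwoValue f) R b → IsSystem (degreeTwoValue f) R' b' → ∀ x x' : ℝ,
            Tendsto (residue R b) (𝓝[>] 1) (𝓝 x) → Tendsto (residue R' b') (𝓝[>] 1) (𝓝 x') →
            |(x - rank ρ F) - (x' - rank ρ F')| < η) ∧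
      {F : IntermediateField K (AlgebraicClosure K) | ∃ _ : NumberField F,
        (∀ F' : IntermediateField K (AlgebraicClosure K), F' ≤ F → F' = ⊥ ∨ F' = F) ∧
        pairOrbits K F ≤ c ∧
        ∃ (R : Finset (HeightOneSpectrum (𝓞 F))) (b : HeightOneSpectrum (𝓞 F) → ℝ)
          (R₀ : Finset (HeightOneSpectrum (𝓞 K))) (b₀ : HeightOneSpectrum (𝓞 K) → ℝ) (x x₀ : ℝ),
          IsSystem (degreeTwoValue f) R b ∧ IsSystem (degreeTwoValue f) R₀ b₀ ∧
          Tendsto (residue R b) (𝓝[>] 1) (𝓝 x) ∧ Tendsto (residue R₀ b₀) (𝓝[>] 1) (𝓝 x₀) ∧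
          η ≤ |(x - rank ρ F) -
            (x₀ - rank ρ (⊥ : IntermediateField K (AlgebraicClosure K)))|}.Finite :=
  ⟨fun _ _ F _ _ _ _ _ hb hb₀ hr hd _ hη =>
      Pool.Agent.T2H28.OD.main_rows (degreeTwo_uniq f) hW F hb hb₀ hr hd hη,
    fun _ F _ _ _ _ _ hb hb₀ _ hr hd _ _ hx hx₀ _ hη =>
      Pool.Agent.T2H28.OD.main_count (degreeTwo_uniq f) hW F hb hb₀ hr hd hx hx₀ hη,
    fun c _ hη => Pool.Agent.T2H28.OD.main_gov (degreeTwo_uniq f) hW c hη⟩

end Pool.Agent.Results.MP_6090f9_nt.OrbitsAndDisjointFields
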